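import Pool.Agent.H65.PK.Targets

/-!
# Mahler measures of integer polynomials (row MZB of pker_modules)
-/

set_option autoImplicit false

open Polynomial Module Filter Topology
open Pool.Agent.H65.PK

namespace Pool.Agent.H19.PKER

noncomputable section

theorem MZB_mapne {Q : ℤ[X]} (hQ : Q ≠ 0) : Q.map (Int.castRingHom ℂ) ≠ 0 := by
  rw [Polynomial.map_ne_zero_iff (RingHom.injective_int _)]
  exact hQ

theorem MZB_mdeg (Q : ℤ[X]) : (Q.map (Int.castRingHom ℂ)).natDegree = Q.natDegree :=
  Polynomial.natDegree_map_eq_of_injective (RingHom.injective_int _) Q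

theorem MZB_one_le_mm {Q : ℤ[X]} (hQ : Q ≠ 0) :
    1 ≤ (Q.map (Int.castRingHom ℂ)).mahlerMeasure := by
  apply one_le_mahlerMeasure_of_one_le_norm_leadingCoeff
  rw [Polynomial.leadingCoeff_map_of_injective (RingHom.injective_int _)]
  have h1 : Q.leadingCoeff ≠ 0 := by simpa using hQ
  have h2 : (1 : ℤ) ≤ |Q.leadingCoeff| := Int.one_le_abs h1
  have h3 : ‖(Int.castRingHom ℂ) Q.leadingCoeff‖ = |((Q.leadingCoeff : ℤ) : ℝ)| := by
    rw [Int.coe_castRingHom]
    exact Complex.norm_intCast _
  rw [h3]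
  exact_mod_cast h2

theorem MZB_log_nonneg {Q : ℤ[X]} (hQ : Q ≠ 0) :
    0 ≤ (Q.map (Int.castRingHom ℂ)).logMahlerMeasure := by
  rw [logMahlerMeasure_eq_log_MahlerMeasure]
  exact Real.log_nonneg (MZB_one_le_mm hQ)

theorem pf_MZB : T_MZB := by
  refine ⟨?_, ?_, ?_, ?_⟩
  · intro P Q hP hQ
    unfold mz
    have h1 : (P * Q).map (Int.castRingHom ℂ) =
        P.map (Int.castRingHom ℂ) * Q.map (Int.castRingHom ℂ) := Polynomial.map_mul _
    have h2 : P.map (Int.castRingHom ℂ) * Q.map (Int.castRingHom ℂ) ≠ 0 :=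
      mul_ne_zero (MZB_mapne hP) (MZB_mapne hQ)
    rw [h1, logMahlerMeasure_mul_eq_add_logMahlerMeasure h2]
  · intro Q hQ
    exact MZB_log_nonneg hQ
  · intro Q i hQ
    set p := Q.map (Int.castRingHom ℂ) with hp
    have h1 := norm_coeff_le_choose_mul_mahlerMeasure i p
    have h2 : ‖p.coeff i‖ = |((Q.coeff i : ℤ) : ℝ)| := by
      rw [hp, Polynomial.coeff_map, Int.coe_castRingHom]
      exact Complex.norm_intCast _
    rw [h2] at h1
    have hM : 1 ≤ p.mahlerMeasure := MZB_one_le_mm hQ
    have h3 : (p.natDegree.choose i : ℝ) ≤ Real.exp Q.natDegree := by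
      have a1 : (p.natDegree.choose i : ℝ) ≤ 2 ^ p.natDegree := by
        exact_mod_cast Nat.choose_le_two_pow p.natDegree i
      have a2 : (2 : ℝ) ≤ Real.exp 1 := by
        have := Real.add_one_le_exp (1 : ℝ)
        linarith
      have a3 : (2 : ℝ) ^ p.natDegree ≤ Real.exp 1 ^ p.natDegree :=
        pow_le_pow_left₀ (by norm_num) a2 _
      rw [← Real.exp_nat_mul, mul_one, hp, MZB_mdeg] at a3
      rw [hp, MZB_mdeg] at a1 ⊢
      linarith
    have h4 : Real.exp (mz Q + Q.natDegree) = Real.exp Q.natDegree * p.mahlerMeasure := by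
      unfold mz
      rw [Real.exp_add, logMahlerMeasure_eq_log_MahlerMeasure, Real.exp_log (by linarith),
        mul_comm]
    rw [h4]
    exact le_trans h1 (mul_le_mul_of_nonneg_right h3 (by linarith))
  · intro Q B hQ hc
    set p := Q.map (Int.castRingHom ℂ) with hp
    have h1 := mahlerMeasure_le_sum_norm_coeff p
    have hM : 1 ≤ p.mahlerMeasure := MZB_one_le_mm hQ
    have h2 : (p.sum fun _ a ↦ ‖a‖) ≤ (Q.natDegree + 1) * Real.exp B := by
      rw [Polynomial.sum_over_range p (by simp)]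
      have hb : ∀ i ∈ Finset.range (p.natDegree + 1), ‖p.coeff i‖ ≤ Real.exp B := by
        intro i _
        rw [hp, Polynomial.coeff_map, Int.coe_castRingHom, Complex.norm_intCast]
        exact hc i
      have := Finset.sum_le_card_nsmul _ _ _ hb
      rw [Finset.card_range, nsmul_eq_mul, hp, MZB_mdeg] at this
      rw [hp, MZB_mdeg]
      push_cast at this
      exact this
    have h3 : (Q.natDegree + 1 : ℝ) ≤ Real.exp Q.natDegree := Real.add_one_le_exp _
    have h4 : p.mahlerMeasure ≤ Real.exp Q.natDegree * Real.exp B :=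
      le_trans h1 (le_trans h2 (mul_le_mul_of_nonneg_right h3 (Real.exp_pos _).le))
    have h5 : Real.log p.mahlerMeasure ≤ Q.natDegree + B := by
      rw [← Real.exp_add] at h4
      have := Real.log_le_log (by linarith) h4
      rwa [Real.log_exp] at this
    unfold mz
    rw [logMahlerMeasure_eq_log_MahlerMeasure]
    linarith

end

end Pool.Agent.H19.PKER
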