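import Pool.Agent.H65.PK.Targets

/-!
# Values and Taylor coefficients, general ratio of the radii (row SMR of pker_modules)
-/

set_option autoImplicit false

open Polynomial Module Filter Topology Pool.Agent.H18.TD Pool.Agent.H65.PK

namespace Pool.Agent.H19.PKER

theorem SMR_sum (x : ℝ) (hx0 : 0 ≤ x) (hx : x ≤ 1 / 2) (K : ℕ) :
    ∑ k ∈ Finset.range K, x ^ k ≤ 2 := by
  have hx1 : x < 1 := by linarith
  have h := (summable_geometric_of_lt_one hx0 hx1).sum_le_tsum
    (Finset.range K) (fun i _ => by positivity)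
  rw [tsum_geometric_of_lt_one hx0 hx1] at h
  refine h.trans ?_
  rw [inv_le_comm₀ (by linarith) (by norm_num)]
  linarith

theorem SMR_tail (x : ℝ) (hx0 : 0 ≤ x) (hx : x ≤ 1 / 2) (K V : ℕ) :
    ∑ k ∈ Finset.range K, (if V ≤ k then (1:ℝ) else 0) * x ^ k ≤ 2 * x ^ V := by
  have h : ∀ K : ℕ, ∑ k ∈ Finset.range K, (if V ≤ k then (1:ℝ) else 0) * x ^ k
      ≤ 2 * x ^ V - (if V ≤ K then 2 * x ^ K else 2 * x ^ V) := by
    intro K
    induction K with
    | zero =>
      by_cases hV : V ≤ 0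
      · have : V = 0 := by omega
        subst this; simp
      · simp [hV]
    | succ n ih =>
      rw [Finset.sum_range_succ]
      by_cases h1 : V ≤ n
      · have h2 : V ≤ n + 1 := by omega
        rw [if_pos h1] at ih
        rw [if_pos h1, if_pos h2, pow_succ]
        have h3 : x ^ n * x ≤ x ^ n * (1 / 2) := mul_le_mul_of_nonneg_left hx (by positivity)
        linarith
      · rw [if_neg h1] at ih
        rw [if_neg h1]
        by_cases h2 : V ≤ n + 1
        · have h3 : V = n + 1 := by omega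
          rw [if_pos h2, h3]
          rw [h3] at ih
          linarith
        · rw [if_neg h2]
          linarith
  have h1 := h K
  have h2 : 0 ≤ (if V ≤ K then 2 * x ^ K else 2 * x ^ V) := by
    split_ifs <;> positivity
  linarith

theorem pf_SMR : Pool.Agent.H18.TD.T_TCB → Pool.Agent.H18.TD.T_TAY → T_SMR := by
  intro hTCB hTAY r Ω _ d μ θ τ y R ρ ε Y V hR hρ hε hy hsmall hY
  classical
  have hρ0 : (0:ℝ) < ρ := by linarith
  set x : ℝ := 2 / ρ with hx
  have hx0 : 0 ≤ x := by positivity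
  have hx1 : x ≤ 1 / 2 := by
    rw [hx, div_le_iff₀ hρ0]
    linarith
  set G : (Fin r → ℕ) → ℂ := fun κ => ∑ w, d w * ∏ i, tc (μ w i) (θ w i) (κ i) with hG
  set P : ℕ → ℂ := fun K => ∑ κ ∈ Fintype.piFinset (fun _ : Fin r => Finset.range K),
    G κ * ∏ i, (((κ i).descFactorial (τ i) : ℂ) * y i ^ (κ i - τ i)) with hP
  have hP1 : ∀ K, P K = ∑ w, d w * ∏ i, ∑ κ ∈ Finset.range K,
      tc (μ w i) (θ w i) κ * (κ.descFactorial (τ i) : ℂ) * y i ^ (κ - τ i) := by
    intro K
    simp only [hP, hG]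
    simp_rw [Finset.prod_univ_sum, Finset.mul_sum, Finset.sum_mul]
    rw [Finset.sum_comm]
    refine Finset.sum_congr rfl fun w _ => Finset.sum_congr rfl fun κ _ => ?_
    rw [mul_assoc, ← Finset.prod_mul_distrib]
    congr 1
    refine Finset.prod_congr rfl fun i _ => ?_
    ring
  have hY0 : 0 ≤ Y := le_trans (Finset.sum_nonneg fun w _ => mul_nonneg (norm_nonneg _)
    (Finset.prod_nonneg fun i _ => by positivity)) hY
  have hR0 : (0:ℝ) < R := by linarith
  have hlim : Tendsto P atTop (𝓝 (∑ w, d w * ∏ i, (der (μ w i) (θ w i) (τ i) (y i) *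
      Complex.exp (θ w i * y i)))) := by
    have : P = fun K => ∑ w, d w * ∏ i, ∑ κ ∈ Finset.range K,
      tc (μ w i) (θ w i) κ * (κ.descFactorial (τ i) : ℂ) * y i ^ (κ - τ i) := funext hP1
    rw [this]
    refine tendsto_finsetSum _ fun w _ => Tendsto.const_mul _ ?_
    exact tendsto_finsetProd _ fun i _ => hTAY _ _ _ _
  refine le_of_tendsto hlim.norm (Eventually.of_forall fun K => ?_)
  set T : ℝ := ∏ i, ((τ i).factorial : ℝ) with hT
  have hT0 : 0 ≤ T := Finset.prod_nonneg fun i _ => by positivity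
  -- the bound for `G`
  have hGb : ∀ κ : Fin r → ℕ, ‖G κ‖ * (ρ * R) ^ (∑ i, κ i) ≤
      ε + Y * ∑ i, (if V ≤ κ i then (1:ℝ) else 0) := by
    intro κ
    by_cases hκ : ∀ i, κ i < V
    · have h1 := hsmall κ hκ
      have h2 : 0 ≤ Y * ∑ i, (if V ≤ κ i then (1:ℝ) else 0) :=
        mul_nonneg hY0 (Finset.sum_nonneg fun i _ => by split_ifs <;> norm_num)
      linarith
    · push Not at hκ
      obtain ⟨i0, hi0⟩ := hκ
      have h1 : (1:ℝ) ≤ ∑ i, (if V ≤ κ i then (1:ℝ) else 0) := by
        have := Finset.single_le_sum (f := fun i => (if V ≤ κ i then (1:ℝ) else 0))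
          (fun i _ => by split_ifs <;> norm_num) (Finset.mem_univ i0)
        simpa [hi0] using this
      have h2 : ‖G κ‖ * (ρ * R) ^ (∑ i, κ i) ≤ Y := by
        refine le_trans ?_ hY
        have h3 : ‖G κ‖ ≤ ∑ w, ‖d w‖ * ∏ i, ‖tc (μ w i) (θ w i) (κ i)‖ := by
          refine (norm_sum_le _ _).trans (Finset.sum_le_sum fun w _ => ?_)
          rw [norm_mul, norm_prod]
        calc ‖G κ‖ * (ρ * R) ^ (∑ i, κ i)
            ≤ (∑ w, ‖d w‖ * ∏ i, ‖tc (μ w i) (θ w i) (κ i)‖) * (ρ * R) ^ (∑ i, κ i) :=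
              mul_le_mul_of_nonneg_right h3 (by positivity)
          _ = ∑ w, ‖d w‖ * ∏ i, (‖tc (μ w i) (θ w i) (κ i)‖ * (ρ * R) ^ (κ i)) := by
              rw [Finset.sum_mul]
              refine Finset.sum_congr rfl fun w _ => ?_
              rw [Finset.prod_mul_distrib, Finset.prod_pow_eq_pow_sum]
              ring
          _ ≤ _ := by
              refine Finset.sum_le_sum fun w _ => mul_le_mul_of_nonneg_left ?_ (norm_nonneg _)
              refine Finset.prod_le_prod (fun i _ => by positivity) fun i _ => ?_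
              exact hTCB _ _ _ _ (by positivity)
      nlinarith
  -- the bound for the factors
  have hfac : ∀ κ : Fin r → ℕ, ‖∏ i, (((κ i).descFactorial (τ i) : ℂ) * y i ^ (κ i - τ i))‖ ≤
      T * (2 * R) ^ (∑ i, κ i) := by
    intro κ
    rw [norm_prod, hT, ← Finset.prod_pow_eq_pow_sum, ← Finset.prod_mul_distrib]
    refine Finset.prod_le_prod (fun i _ => norm_nonneg _) fun i _ => ?_
    rw [norm_mul, norm_pow, Complex.norm_natCast, mul_pow, ← mul_assoc]
    refine mul_le_mul ?_ ?_ (by positivity) (by positivity)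
    · rw [Nat.descFactorial_eq_factorial_mul_choose]
      push_cast
      refine mul_le_mul_of_nonneg_left ?_ (by positivity)
      exact_mod_cast Nat.choose_le_two_pow (κ i) (τ i)
    · calc ‖y i‖ ^ (κ i - τ i) ≤ R ^ (κ i - τ i) := pow_le_pow_left₀ (norm_nonneg _) (hy i) _
        _ ≤ R ^ κ i := pow_le_pow_right₀ hR (Nat.sub_le _ _)
  have hterm : ∀ κ : Fin r → ℕ, ‖G κ * ∏ i, (((κ i).descFactorial (τ i) : ℂ) *
      y i ^ (κ i - τ i))‖ ≤ T * ((ε + Y * ∑ i, (if V ≤ κ i then (1:ℝ) else 0)) *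
        x ^ (∑ i, κ i)) := by
    intro κ
    rw [norm_mul]
    calc _ ≤ ‖G κ‖ * (T * (2 * R) ^ (∑ i, κ i)) :=
          mul_le_mul_of_nonneg_left (hfac κ) (norm_nonneg _)
      _ = T * ((‖G κ‖ * (ρ * R) ^ (∑ i, κ i)) * x ^ (∑ i, κ i)) := by
          rw [show (2 * R : ℝ) = (ρ * R) * x by rw [hx]; field_simp, mul_pow (ρ * R) x]
          ring
      _ ≤ _ := mul_le_mul_of_nonneg_left (mul_le_mul_of_nonneg_right (hGb κ) (by positivity)) hT0
  have hs1 : ∑ κ ∈ Fintype.piFinset (fun _ : Fin r => Finset.range K),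
      x ^ (∑ i, κ i) ≤ 2 ^ r := by
    have h1 : ∑ κ ∈ Fintype.piFinset (fun _ : Fin r => Finset.range K),
        x ^ (∑ i, κ i) = ∏ _i : Fin r, ∑ k ∈ Finset.range K, x ^ k := by
      rw [Finset.prod_univ_sum]
      exact Finset.sum_congr rfl fun κ _ => (Finset.prod_pow_eq_pow_sum _ _ _).symm
    rw [h1]
    calc _ ≤ ∏ _i : Fin r, (2:ℝ) := Finset.prod_le_prod
          (fun i _ => Finset.sum_nonneg fun k _ => by positivity) fun i _ => SMR_sum x hx0 hx1 K
      _ = 2 ^ r := by simp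
  have hs2 : ∀ i : Fin r, ∑ κ ∈ Fintype.piFinset (fun _ : Fin r => Finset.range K),
      (if V ≤ κ i then (1:ℝ) else 0) * x ^ (∑ i, κ i) ≤ 2 ^ r * x ^ V := by
    intro i
    have h1 : ∑ κ ∈ Fintype.piFinset (fun _ : Fin r => Finset.range K),
        (if V ≤ κ i then (1:ℝ) else 0) * x ^ (∑ i, κ i) =
        ∏ j : Fin r, ∑ k ∈ Finset.range K,
          ((if j = i then (if V ≤ k then (1:ℝ) else 0) else 1) * x ^ k) := by
      rw [Finset.prod_univ_sum]
      refine Finset.sum_congr rfl fun κ _ => ?_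
      rw [Finset.prod_mul_distrib, Finset.prod_pow_eq_pow_sum]
      congr 1
      rw [Finset.prod_ite_eq' Finset.univ i (fun j => if V ≤ κ j then (1:ℝ) else 0)]
      simp
    rw [h1]
    calc _ ≤ ∏ j : Fin r, (2 * (if j = i then x ^ V else 1)) := by
          refine Finset.prod_le_prod (fun j _ => Finset.sum_nonneg fun k _ => by
            split_ifs <;> positivity) fun j _ => ?_
          by_cases hj : j = i
          · simp only [hj, if_true]
            exact SMR_tail x hx0 hx1 K V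
          · simp only [hj, if_false, one_mul, mul_one]
            exact SMR_sum x hx0 hx1 K
      _ = 2 ^ r * x ^ V := by
          rw [Finset.prod_mul_distrib, Finset.prod_ite_eq' Finset.univ i (fun _ => x ^ V)]
          simp
  calc ‖P K‖ ≤ ∑ κ ∈ Fintype.piFinset (fun _ : Fin r => Finset.range K),
        T * ((ε + Y * ∑ i, (if V ≤ κ i then (1:ℝ) else 0)) * x ^ (∑ i, κ i)) :=
        (norm_sum_le _ _).trans (Finset.sum_le_sum fun κ _ => hterm κ)
    _ = T * (ε * (∑ κ ∈ Fintype.piFinset (fun _ : Fin r => Finset.range K),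
          x ^ (∑ i, κ i)) + Y * ∑ i : Fin r,
          ∑ κ ∈ Fintype.piFinset (fun _ : Fin r => Finset.range K),
          (if V ≤ κ i then (1:ℝ) else 0) * x ^ (∑ i, κ i)) := by
        rw [Finset.sum_comm, ← Finset.mul_sum, Finset.mul_sum _ _ ε, Finset.mul_sum _ _ Y,
          ← Finset.sum_add_distrib]
        congr 1
        refine Finset.sum_congr rfl fun κ _ => ?_
        rw [← Finset.sum_mul]
        ring
    _ ≤ T * (ε * 2 ^ r + Y * ∑ _i : Fin r, (2 ^ r * x ^ V)) := by
        refine mul_le_mul_of_nonneg_left (add_le_add (mul_le_mul_of_nonneg_left hs1 hε)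
          (mul_le_mul_of_nonneg_left (Finset.sum_le_sum fun i _ => hs2 i) hY0)) hT0
    _ = T * (2 ^ r * (ε + r * x ^ V * Y)) := by
        rw [Finset.sum_const, Finset.card_univ, Fintype.card_fin, nsmul_eq_mul]
        ring

end Pool.Agent.H19.PKER
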